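import Pool.Agent.Helper31.FM.Fin

set_option autoImplicit false

/-!
MP_237b58_an: the bound of Q1 holds in fourth mean on the whole range.

For every `δ > 0` there is `C` such that for every `n ≥ 1`, every even Schwartz function `b` with `b̂ = b` and `b(√m) = δ_{nm}`
(`m ≥ 0`), and `1 ≤ X ≤ n - √n`: `∫_X^{n-√n} |b(√x)|⁴ dx ≤ C n^(1+δ) X^(-2)`.
-/

namespace Pool.Agent.Results.MP_237b58_an.FourthMoment

open MeasureTheory in
theorem result : ∀ δ : ℝ, 0 < δ → ∃ C : ℝ, 0 < C ∧ ∀ n : ℕ, 1 ≤ n → ∀ b : SchwartzMap ℝ ℂ,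
    (∀ s : ℝ, b (-s) = b s) →
    (∀ ξ : ℝ, ∫ s : ℝ, Complex.exp (-(2 * Real.pi * Complex.I * ξ * s)) * b s = b ξ) →
    (∀ m : ℕ, b (Real.sqrt m) = if m = n then 1 else 0) →
    ∀ X : ℝ, 1 ≤ X → X ≤ n - Real.sqrt n →
      ∫ x in X..(n - Real.sqrt n), ‖b (Real.sqrt x)‖ ^ 4 ≤
        C * ((n : ℝ) ^ (1 + δ) * X ^ (-2 : ℝ)) :=
  fun δ hδ => Pool.Agent.Helper31.FM.fm_final δ hδ

end Pool.Agent.Results.MP_237b58_an.FourthMoment
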