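import Pool.Agent.Helper31.FI.OmF

set_option autoImplicit false

/-!
MP_237b58_an: large values of the Fourier interpolation basis on the range of Q1.

For every `ε > 0` there are arbitrarily large `n` such that every even Schwartz function `b` with
`b̂ = b` and `b(√m) = δ_{nm}` (`m ≥ 0`) has `|b(√x)| ≥ n^(-1/2) exp((log n)^(1/2 - ε))` at some `x`
with `n/2 ≤ x ≤ n - √n`.
-/

namespace Pool.Agent.Results.MP_237b58_an.LargeValuesBasis

theorem result : ∀ ε : ℝ, 0 < ε → ∀ N₀ : ℕ, ∃ n : ℕ, N₀ ≤ n ∧ ∀ b : SchwartzMap ℝ ℂ,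
    (∀ s : ℝ, b (-s) = b s) →
    (∀ ξ : ℝ, ∫ s : ℝ, Complex.exp (-(2 * Real.pi * Complex.I * ξ * s)) * b s = b ξ) →
    (∀ m : ℕ, b (Real.sqrt m) = if m = n then 1 else 0) →
    ∃ x : ℝ, (n : ℝ) / 2 ≤ x ∧ x ≤ n - Real.sqrt n ∧
      (n : ℝ) ^ (-(1 / 2) : ℝ) * Real.exp (Real.log n ^ (1 / 2 - ε)) ≤ ‖b (Real.sqrt x)‖ :=
  Pool.Agent.Helper31.FI.omega_f

end Pool.Agent.Results.MP_237b58_an.LargeValuesBasis
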