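import Pool.Agent.Helper31.FI.FinalD

set_option autoImplicit false

/-!
MP_237b58_an: the bound of Q1 holds in mean square on the whole range.

For every `n ≥ 1`, every even Schwartz function `b` with `b̂ = b` and `b(√m) = δ_{nm}` (`m ≥ 0`), and `1 ≤ X ≤ n - √n`:
`∫_X^{n-√n} |b(√x)|² dx ≤ C (1 + log n)⁵ n^(1/2) X^(-1/2)`, with an absolute constant `C`.
-/

namespace Pool.Agent.Results.MP_237b58_an.MeanSquareBasis

open MeasureTheory in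
theorem result : ∃ C : ℝ, 0 < C ∧ ∀ n : ℕ, 1 ≤ n → ∀ b : SchwartzMap ℝ ℂ,
    (∀ s : ℝ, b (-s) = b s) →
    (∀ ξ : ℝ, ∫ s : ℝ, Complex.exp (-(2 * Real.pi * Complex.I * ξ * s)) * b s = b ξ) →
    (∀ m : ℕ, b (Real.sqrt m) = if m = n then 1 else 0) →
    ∀ X : ℝ, 1 ≤ X → X ≤ n - Real.sqrt n →
      ∫ x in X..(n - Real.sqrt n), ‖b (Real.sqrt x)‖ ^ 2 ≤
        C * ((1 + Real.log n) ^ 5 * ((n : ℝ) ^ (1 / 2 : ℝ) * X ^ (-(1 / 2) : ℝ))) :=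
  Pool.Agent.Helper31.FI.final_d

end Pool.Agent.Results.MP_237b58_an.MeanSquareBasis
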