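import Pool.Agent.Helper31.FI.FinalA

set_option autoImplicit false

/-!
MP_237b58_an: a pointwise bound for the Fourier interpolation basis on the whole range `1 ≤ x ≤ n - √n`.

For every `n ≥ 1` and every even Schwartz function `b` with `b̂ = b` and `b(√m) = δ_{nm}` (`m ≥ 0`):
`|b(√x)| ≤ C (1 + log n)² n^(1/4) x^(-33/52)` for `1 ≤ x ≤ n - √n`, with an absolute constant `C`.
-/

namespace Pool.Agent.Results.MP_237b58_an.PointwiseBound

theorem result : ∃ C : ℝ, 0 < C ∧ ∀ n : ℕ, 1 ≤ n → ∀ b : SchwartzMap ℝ ℂ,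
    (∀ s : ℝ, b (-s) = b s) →
    (∀ ξ : ℝ, ∫ s : ℝ, Complex.exp (-(2 * Real.pi * Complex.I * ξ * s)) * b s = b ξ) →
    (∀ m : ℕ, b (Real.sqrt m) = if m = n then 1 else 0) →
    ∀ x : ℝ, 1 ≤ x → x ≤ n - Real.sqrt n →
      ‖b (Real.sqrt x)‖ ≤
        C * ((1 + Real.log n) ^ 2 * ((n : ℝ) ^ (1 / 4 : ℝ) * x ^ (-(33 / 52) : ℝ))) :=
  Pool.Agent.Helper31.FI.final_a

end Pool.Agent.Results.MP_237b58_an.PointwiseBound
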